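import Pool.Agent.N647.BU.Core
import Pool.Agent.N647.FG.AP

set_option autoImplicit false

/-! # Burgess' bound for progressions in short intervals -/

namespace Pool.Agent.N647.BU

open Finset Filter
open Pool.Agent.N647.FG (AP AP_eq AP_ends AP_card)

lemma sum_Ioc_nat (A : ℤ) (N : ℕ) (f : ℤ → ℂ) :
    ∑ k ∈ Ioc A (A + N), f k = ∑ m ∈ Icc 1 N, f (A + m) := by
  induction N with
  | zero => simp
  | succ n ih =>
    have h1 : Ioc A (A + (n + 1 : ℕ)) = insert (A + n + 1) (Ioc A (A + n)) := by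
      ext x
      simp only [mem_Ioc, mem_insert]
      push_cast
      omega
    rw [h1, sum_insert (by simp), ih, sum_Icc_succ_top (by omega)]
    push_cast
    rw [add_comm, add_assoc A]

/-- the sum of a character over a progression is a sum over an interval -/
lemma sum_AP {p : ℕ} [Fact p.Prime] (χ : DirichletCharacter ℂ p) (M : ℤ) (L q : ℕ) (hq : 1 ≤ q)
    (hqp : q < p) (ρ : ℤ) : ∃ (c : ZMod p) (N : ℕ), |(N : ℝ) - (L : ℝ) / q| ≤ 1 ∧
      ‖∑ x ∈ AP M L q ρ, χ ((x : ℤ) : ZMod p)‖ = ‖sS p χ c N‖ := by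
  obtain ⟨A, N, h1, h2, h3⟩ := AP_ends M L q hq ρ
  have hq0 : (q : ZMod p) ≠ 0 := by
    rw [Ne, ZMod.natCast_eq_zero_iff]
    intro hd
    have := Nat.le_of_dvd hq hd
    omega
  refine ⟨(A : ZMod p) + (ρ : ZMod p) * (q : ZMod p)⁻¹, N, h3, ?_⟩
  have e1 : ∑ x ∈ AP M L q ρ, χ ((x : ℤ) : ZMod p) =
      χ (q : ZMod p) * sS p χ ((A : ZMod p) + (ρ : ZMod p) * (q : ZMod p)⁻¹) N := by
    rw [AP_eq M L q hq, sum_map, h1, h2, sum_Ioc_nat]
    unfold sS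
    rw [mul_sum]
    refine sum_congr rfl fun m _ => ?_
    rw [← map_mul]
    congr 1
    show (((A + m) * q + ρ : ℤ) : ZMod p) = _
    push_cast
    field_simp
    ring
  rw [e1, norm_mul]
  have : ‖χ (q : ZMod p)‖ = 1 := by
    obtain ⟨u, hu⟩ := (isUnit_iff_ne_zero.mpr hq0 : IsUnit (q : ZMod p))
    rw [← hu]
    exact χ.unit_norm_eq_one u
  rw [this, one_mul]

/-- **Burgess' bound for progressions**: for every `η > 0` there is `δ > 0` such that the sum of a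
non-principal character modulo a large prime `p` over the integers `x ≡ ρ` modulo `q`, `q ≤ p ^ δ`, of
an interval of length `L ≥ p ^ (1/4 + η)` is at most `L p ^ (-δ)`. -/
theorem bur_AP (η : ℝ) (hη : 0 < η) : ∃ δ : ℝ, 0 < δ ∧ ∀ᶠ p : ℕ in atTop, ∀ [Fact p.Prime],
    ∀ χ : DirichletCharacter ℂ p, χ ≠ 1 → ∀ (M : ℤ) (L q : ℕ), 1 ≤ q → (q : ℝ) ≤ (p : ℝ) ^ δ →
      ∀ ρ : ℤ, (p : ℝ) ^ (1 / 4 + η) ≤ L →
      ‖∑ x ∈ AP M L q ρ, χ ((x : ℤ) : ZMod p)‖ ≤ (p : ℝ) ^ (-δ) * L := by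
  obtain ⟨δ', hδ', h⟩ := burc (η / 2) (by positivity)
  set δ : ℝ := min (δ' / 2) (min (η / 4) (1 / 2)) with hδ
  have hδ0 : 0 < δ := lt_min (by positivity) (lt_min (by positivity) (by norm_num))
  have h1 : δ ≤ δ' / 2 := min_le_left _ _
  have h2 : δ ≤ η / 4 := (min_le_right _ _).trans (min_le_left _ _)
  have h3 : δ ≤ 1 / 2 := (min_le_right _ _).trans (min_le_right _ _)
  refine ⟨δ, hδ0, ?_⟩
  have tc : Tendsto (fun q : ℕ => (q : ℝ)) atTop atTop := tendsto_natCast_atTop_atTop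
  have f1 : ∀ᶠ x : ℝ in atTop, 2 ≤ x ^ (η / 4) :=
    (tendsto_rpow_atTop (by positivity)).eventually_ge_atTop _
  have f2 : ∀ᶠ x : ℝ in atTop, 2 ≤ x ^ (δ' / 2) :=
    (tendsto_rpow_atTop (by positivity)).eventually_ge_atTop _
  filter_upwards [h, tc.eventually f1, tc.eventually f2, eventually_ge_atTop 2] with p hp g1 g2 hp2
  intro _ χ hχ M L q hq hqp ρ hL
  have hp1 : (1 : ℝ) < p := by
    have : (2 : ℝ) ≤ p := by exact_mod_cast hp2
    linarith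
  have hp0 : (0 : ℝ) < p := by linarith
  have hmono : ∀ x y : ℝ, x ≤ y → (p : ℝ) ^ x ≤ (p : ℝ) ^ y := fun x y h =>
    Real.rpow_le_rpow_of_exponent_le hp1.le h
  have hqp' : q < p := by
    have h4 : (p : ℝ) ^ δ < (p : ℝ) ^ (1 : ℝ) := Real.rpow_lt_rpow_of_exponent_lt hp1 (by linarith)
    rw [Real.rpow_one] at h4
    exact_mod_cast hqp.trans_lt h4
  obtain ⟨c, N, hN, e⟩ := sum_AP χ M L q hq hqp' ρ
  rw [e]
  have hqR : (1 : ℝ) ≤ q := by exact_mod_cast hq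
  have hq0 : (0 : ℝ) < q := by linarith
  obtain ⟨n1, n2⟩ := abs_le.mp hN
  have hL0 : (0 : ℝ) ≤ L := Nat.cast_nonneg _
  -- the length
  have h5 : 2 * (p : ℝ) ^ (1 / 4 + η / 2) ≤ (L : ℝ) / q := by
    rw [le_div_iff₀ hq0]
    calc 2 * (p : ℝ) ^ (1 / 4 + η / 2) * q ≤ (p : ℝ) ^ (η / 4) * (p : ℝ) ^ (1 / 4 + η / 2) *
          (p : ℝ) ^ (η / 4) := by
          gcongr
          exact hqp.trans (hmono _ _ h2)
      _ = (p : ℝ) ^ (1 / 4 + η) := by
          rw [← Real.rpow_add hp0, ← Real.rpow_add hp0]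
          congr 1
          ring
      _ ≤ L := hL
  have h6 : 1 ≤ (p : ℝ) ^ (1 / 4 + η / 2) := Real.one_le_rpow hp1.le (by positivity)
  have h7 : (p : ℝ) ^ (1 / 4 + η / 2) ≤ N := by linarith
  have h8 := hp Fact.out χ hχ c N h7
  have h9 : (N : ℝ) ≤ 2 * L := by
    have : (L : ℝ) / q ≤ L := div_le_self hL0 hqR
    linarith
  calc ‖sS p χ c N‖ ≤ (p : ℝ) ^ (-δ') * N := h8
    _ ≤ (p : ℝ) ^ (-δ') * (2 * L) := by gcongr
    _ ≤ (p : ℝ) ^ (-δ') * ((p : ℝ) ^ (δ' / 2) * L) := by gcongr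
    _ = (p : ℝ) ^ (-(δ' / 2)) * L := by
        rw [← mul_assoc, ← Real.rpow_add hp0]
        congr 2
        ring
    _ ≤ (p : ℝ) ^ (-δ) * L := by
        gcongr
        exact hp1.le

end Pool.Agent.N647.BU
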