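import Pool.Agent.N647.BU.Shift

set_option autoImplicit false
set_option maxHeartbeats 4000000

/-! # Burgess' bound with a power saving for intervals in arbitrary position
(after `Pool.Agent.R502.BL.Bur`) -/

namespace Pool.Agent.N647.BU

open Finset Filter
open Pool.Agent.H471R4.BW (Complete MOM HOL Fam mom tup hol bfm_count bfmA)

theorem burc_core (δ η : ℝ) (K : ℝ) (hδ : 0 < δ) (hδ1 : δ ≤ 1)
    (hη : 0 < η) (hK : 0 ≤ K) (r : ℕ) (hr : 1 ≤ r) (hrη : 1 / (2 * (r : ℝ)) ≤ η)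
    (N : ℕ) (hN3 : (3 : ℝ) ≤ N)
    (hb : 200 ≤ δ * (N : ℝ) ^ (1 / 4 : ℝ) / 32)
    (hc : 8 * (Real.log N) ^ 2 ≤ δ * (N : ℝ) ^ (1 / 4 : ℝ) / 32)
    (hd : 4 * ((r : ℝ) ^ (2 * r) + K) * 128 * Real.log N ≤
      ((δ / 2) ^ (2 * r) * δ) * (N : ℝ) ^ η)
    [NeZero N] (χ : DirichletCharacter ℂ N)
    (hF : ∀ B : ℕ, (B : ℝ) ≤ 2 * (N : ℝ) ^ (1 / (2 * (r : ℝ))) → Complete N χ r B K)
    (c : ZMod N) (X : ℕ)
    (hX1 : (N : ℝ) ^ (1 / 4 + η) ≤ X) (hX2 : (X : ℝ) ^ 2 ≤ N * (N : ℝ) ^ (1 / (2 * (r : ℝ)))) :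
    ‖sS N χ c X‖ ≤ δ * X := by
  have hNpos : (0 : ℝ) < N := by linarith
  have hN1 : (1 : ℝ) ≤ N := by linarith
  have hr' : (1 : ℝ) ≤ r := by exact_mod_cast hr
  set s : ℝ := 1 / (2 * (r : ℝ)) with hs
  have hs0 : 0 < s := by positivity
  have hNs1 : 1 ≤ (N : ℝ) ^ s := Real.one_le_rpow hN1 hs0.le
  set B : ℕ := ⌈(N : ℝ) ^ s⌉₊ with hB
  have hB1 : (N : ℝ) ^ s ≤ B := Nat.le_ceil _
  have hB2 : (B : ℝ) ≤ 2 * (N : ℝ) ^ s := by
    have := (Nat.ceil_lt_add_one (by linarith : (0 : ℝ) ≤ (N : ℝ) ^ s)).le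
    linarith
  have hBone : (1 : ℝ) ≤ B := hNs1.trans hB1
  have hBpos : (0 : ℝ) < B := by linarith
  have hX0 : (1 : ℝ) ≤ X := by
    refine le_trans ?_ hX1
    exact Real.one_le_rpow hN1 (by linarith)
  have hXpos : (0 : ℝ) < X := by linarith
  set M : ℕ := ⌊δ * X / (8 * B)⌋₊ with hM
  have hM1 : (M : ℝ) ≤ δ * X / (8 * B) := Nat.floor_le (by positivity)
  have hM2 : δ * X / (8 * B) - 1 < M := Nat.sub_one_lt_floor _
  -- lower bound for `X / B`
  have hq : (N : ℝ) ^ (1 / 4 : ℝ) * B ≤ 2 * X := by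
    have e1 : (N : ℝ) ^ (1 / 4 : ℝ) * (N : ℝ) ^ s ≤ (N : ℝ) ^ (1 / 4 + η) := by
      rw [← Real.rpow_add hNpos]
      exact Real.rpow_le_rpow_of_exponent_le hN1 (by linarith)
    have e2 : 0 ≤ (N : ℝ) ^ (1 / 4 : ℝ) := Real.rpow_nonneg hNpos.le _
    nlinarith
  have hM3 : δ * (N : ℝ) ^ (1 / 4 : ℝ) / 16 ≤ δ * X / (8 * B) := by
    rw [div_le_div_iff₀ (by norm_num) (by positivity)]
    nlinarith
  have hM4 : δ * (N : ℝ) ^ (1 / 4 : ℝ) / 32 ≤ M := by linarith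
  have hM200 : 200 ≤ M := by exact_mod_cast hb.trans hM4
  have hXX : (X : ℝ) * X ≤ N * B := by
    calc (X : ℝ) * X = (X : ℝ) ^ 2 := by ring
      _ ≤ N * (N : ℝ) ^ s := hX2
      _ ≤ N * B := by gcongr
  have hMX : (M : ℝ) * (8 * B) ≤ δ * X := by
    rwa [le_div_iff₀ (by positivity)] at hM1
  have hMpos0 : (0 : ℝ) ≤ M := Nat.cast_nonneg _
  have hMXN' : ((M : ℝ) * X) * 8 ≤ N := by
    have h1 : ((M : ℝ) * X) * (8 * B) ≤ N * B := by
      calc ((M : ℝ) * X) * (8 * B) = (M : ℝ) * (8 * B) * X := by ring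
        _ ≤ δ * X * X := by gcongr
        _ ≤ 1 * X * X := by gcongr
        _ = (X : ℝ) * X := by ring
        _ ≤ N * B := hXX
    have h3 : (((M : ℝ) * X) * 8) * B ≤ N * B := by linarith
    exact le_of_mul_le_mul_right h3 hBpos
  have hMXN : 2 * M * X < N := by
    have : 2 * (M : ℝ) * X < N := by nlinarith
    exact_mod_cast this
  have hMN : M ≤ N := by
    have h1 : M ≤ M * X := Nat.le_mul_of_pos_right M (by exact_mod_cast hXpos)
    nlinarith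
  have hcard := bfm_count M N hM200 hMN (hc.trans hM4)
  have hL : 0 < Real.log N := Real.log_pos (by linarith)
  have hMpos : (0 : ℝ) < M := by
    have : (200 : ℝ) ≤ M := by exact_mod_cast hM200
    linarith
  have hcardpos : (0 : ℝ) < (bfmA M N).card := lt_of_lt_of_le (by positivity) hcard
  have hne : (bfmA M N).Nonempty := by
    rw [← card_pos]
    exact_mod_cast hcardpos
  have hAM : ∀ a ∈ bfmA M N, a ≤ M :=
    fun a ha => Nat.lt_succ_iff.1 (mem_range.1 (mem_filter.1 ha).1)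
  have hAX : (bfmA M N).card ≤ X := by
    have h1 : (bfmA M N).card ≤ M + 1 := by
      refine (card_le_card (t := range (M + 1)) ?_).trans_eq (card_range _)
      intro a ha
      exact mem_range.mpr (Nat.lt_succ_of_le (hAM a ha))
    have h2 : (M : ℝ) * 8 ≤ X := by
      have h3 : (M : ℝ) * (8 * 1) ≤ M * (8 * B) := by gcongr
      have h4 : δ * X ≤ 1 * X := by gcongr
      linarith
    have h3 : M * 8 ≤ X := by exact_mod_cast h2
    omega
  have hBr : Real.sqrt N ≤ (B : ℝ) ^ r := by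
    have e1 : ((N : ℝ) ^ s) ^ r = Real.sqrt N := by
      rw [Real.sqrt_eq_rpow, ← Real.rpow_natCast, ← Real.rpow_mul hNpos.le, hs]
      congr 1
      field_simp
    rw [← e1]
    exact pow_le_pow_left₀ (by linarith) hB1 r
  have hmain := binc (mom tup) hol N χ (bfmA M N) c X M B r K hr hK (by exact_mod_cast hBone)
    (by exact_mod_cast hX0) hne (fun a ha => (mem_filter.1 ha).2.1)
    (fun a ha => (mem_filter.1 ha).2.2) hAM hMXN hAX hBr (hF B hB2)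
  -- the second term
  have hAX' : δ * ((N : ℝ) ^ η * Real.sqrt N) / (128 * Real.log N) ≤ (bfmA M N).card * X := by
    have e1 : (N : ℝ) ^ (1 / 4 : ℝ) * (N : ℝ) ^ (1 / 4 + η) = (N : ℝ) ^ η * Real.sqrt N := by
      rw [Real.sqrt_eq_rpow, ← Real.rpow_add hNpos, ← Real.rpow_add hNpos]
      congr 1
      ring
    rw [← e1]
    have e2 : δ * (N : ℝ) ^ (1 / 4 : ℝ) / (128 * Real.log N) ≤ (bfmA M N).card := by
      refine le_trans ?_ hcard
      rw [div_le_div_iff₀ (by positivity) (by positivity)]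
      nlinarith
    have e3 : 0 ≤ (N : ℝ) ^ (1 / 4 + η) := Real.rpow_nonneg hNpos.le _
    calc δ * ((N : ℝ) ^ (1 / 4 : ℝ) * (N : ℝ) ^ (1 / 4 + η)) / (128 * Real.log N)
        = (δ * (N : ℝ) ^ (1 / 4 : ℝ) / (128 * Real.log N)) * (N : ℝ) ^ (1 / 4 + η) := by ring
      _ ≤ (bfmA M N).card * X := mul_le_mul e2 hX1 e3 hcardpos.le
  have hsq : 0 < Real.sqrt N := Real.sqrt_pos.2 hNpos
  have hNη : 0 < (N : ℝ) ^ η := Real.rpow_pos_of_pos hNpos _
  have hQ : 4 * ((r : ℝ) ^ (2 * r) + K) * Real.sqrt N / ((bfmA M N).card * X) ≤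
      (δ / 2) ^ (2 * r) := by
    rw [div_le_iff₀ (by positivity)]
    have e1 : 4 * ((r : ℝ) ^ (2 * r) + K) * Real.sqrt N ≤
        (δ / 2) ^ (2 * r) * (δ * ((N : ℝ) ^ η * Real.sqrt N) / (128 * Real.log N)) := by
      rw [mul_div_assoc', le_div_iff₀ (by positivity)]
      have := mul_le_mul_of_nonneg_right hd hsq.le
      nlinarith
    exact e1.trans (mul_le_mul_of_nonneg_left hAX' (by positivity))
  have hQ0 : 0 ≤ 4 * ((r : ℝ) ^ (2 * r) + K) * Real.sqrt N / ((bfmA M N).card * X) := by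
    positivity
  have hroot : (4 * ((r : ℝ) ^ (2 * r) + K) * Real.sqrt N / ((bfmA M N).card * X)) ^
      (1 / (2 * r : ℝ)) ≤ δ / 2 := by
    calc (4 * ((r : ℝ) ^ (2 * r) + K) * Real.sqrt N / ((bfmA M N).card * X)) ^
      (1 / (2 * r : ℝ)) ≤ ((δ / 2) ^ (2 * r)) ^ (1 / (2 * r : ℝ)) :=
          Real.rpow_le_rpow hQ0 hQ (by positivity)
      _ = δ / 2 := by
          rw [← Real.rpow_natCast, ← Real.rpow_mul (by positivity)]
          have : ((2 * r : ℕ) : ℝ) * (1 / (2 * r : ℝ)) = 1 := by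
            push_cast
            field_simp
          rw [this, Real.rpow_one]
  have hfirst : 2 * (M : ℝ) * B ≤ δ * X / 4 := by linarith
  calc ‖sS N χ c X‖ ≤ _ := hmain
    _ ≤ δ * X / 4 + X * (δ / 2) := add_le_add hfirst (mul_le_mul_of_nonneg_left hroot hXpos.le)
    _ ≤ δ * X := by nlinarith

/-- **Burgess' bound with a power saving** for the non-principal characters modulo a prime `q` and the
intervals `c + 1, …, c + X` in arbitrary position, `q ^ (1/4 + η) ≤ X ≤ q ^ (1/2 + δ)`. -/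
theorem burc0 (η : ℝ) (hη : 0 < η) : ∃ δ : ℝ, 0 < δ ∧ ∀ᶠ q : ℕ in atTop, q.Prime →
    ∀ χ : DirichletCharacter ℂ q, χ ≠ 1 → ∀ (c : ZMod q) (X : ℕ), (q : ℝ) ^ (1 / 4 + η) ≤ X →
      (X : ℝ) ≤ (q : ℝ) ^ (1 / 2 + δ) → ‖sS q χ c X‖ ≤ (q : ℝ) ^ (-δ) * X := by
  obtain ⟨r, hr⟩ := exists_nat_ge (1 / (2 * η) + 1)
  have hr1 : (1 : ℝ) ≤ r := by
    have : 0 < 1 / (2 * η) := by positivity
    linarith
  have hr1' : 1 ≤ r := by exact_mod_cast hr1
  have hrη : 1 / (2 * (r : ℝ)) ≤ η := by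
    rw [div_le_iff₀ (by positivity)]
    have h1 : 1 / (2 * η) ≤ r := by linarith
    rw [div_le_iff₀ (by positivity)] at h1
    linarith
  set δ : ℝ := min (1 / 8) (min (η / (2 * (2 * r + 1))) (1 / (4 * (r : ℝ)))) with hδ
  have hδ0 : 0 < δ := by
    apply lt_min (by norm_num)
    apply lt_min <;> positivity
  have hδ8 : δ ≤ 1 / 8 := min_le_left _ _
  have hδη : δ ≤ η / (2 * (2 * r + 1)) := (min_le_right _ _).trans (min_le_left _ _)
  have hδr : δ ≤ 1 / (4 * (r : ℝ)) := (min_le_right _ _).trans (min_le_right _ _)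
  refine ⟨δ, hδ0, ?_⟩
  have tc : Tendsto (fun q : ℕ => (q : ℝ)) atTop atTop := tendsto_natCast_atTop_atTop
  have f1 : ∀ᶠ x : ℝ in atTop, 6400 ≤ x ^ (1 / 8 : ℝ) :=
    (tendsto_rpow_atTop (by norm_num : (0 : ℝ) < 1 / 8)).eventually_ge_atTop _
  have f2 : ∀ᶠ x : ℝ in atTop, 256 * Real.log x ^ 2 ≤ x ^ (1 / 8 : ℝ) := by
    have h1 := (isLittleO_log_rpow_rpow_atTop (2 : ℝ) (show (0 : ℝ) < 1 / 8 by norm_num)).def
      (show (0 : ℝ) < 1 / 256 by norm_num)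
    filter_upwards [h1, eventually_ge_atTop 1] with x hx hx1
    have h2 : 0 ≤ Real.log x := Real.log_nonneg hx1
    rw [Real.norm_eq_abs, Real.norm_eq_abs, abs_of_nonneg (by positivity), abs_of_nonneg (by positivity)] at hx
    have h3 : Real.log x ^ (2 : ℝ) = Real.log x ^ 2 := by
      rw [← Real.rpow_natCast]; norm_num
    rw [h3] at hx
    linarith
  have f3 : ∀ᶠ x : ℝ in atTop, 4 * ((r : ℝ) ^ (2 * r) + 2 * r) * 128 * 2 ^ (2 * r) * Real.log x ≤ x ^ (η / 2) := by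
    set c : ℝ := 4 * ((r : ℝ) ^ (2 * r) + 2 * r) * 128 * 2 ^ (2 * r) with hc
    have hc0 : 0 < c := by positivity
    have h1 := (isLittleO_log_rpow_atTop (show (0 : ℝ) < η / 2 by positivity)).def
      (show (0 : ℝ) < 1 / c by positivity)
    filter_upwards [h1, eventually_ge_atTop 1] with x hx hx1
    have h2 : 0 ≤ Real.log x := Real.log_nonneg hx1
    rw [Real.norm_eq_abs, Real.norm_eq_abs, abs_of_nonneg h2, abs_of_nonneg (by positivity)] at hx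
    calc c * Real.log x ≤ c * (1 / c * x ^ (η / 2)) := by gcongr
      _ = x ^ (η / 2) := by field_simp
  have f4 : ∀ᶠ x : ℝ in atTop, 2 ≤ x ^ (1 / 2 : ℝ) :=
    (tendsto_rpow_atTop (by norm_num : (0 : ℝ) < 1 / 2)).eventually_ge_atTop _
  filter_upwards [tc.eventually f1, tc.eventually f2, tc.eventually f3, tc.eventually f4, eventually_ge_atTop 3]
    with q g1 g2 g3 g4 hq3
  intro hqp χ hχ c X hX1 hX2
  have : Fact q.Prime := ⟨hqp⟩
  have : NeZero q := ⟨hqp.ne_zero⟩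
  have hq3r : (3 : ℝ) ≤ q := by exact_mod_cast hq3
  have hq0 : (0 : ℝ) < q := by linarith
  have hq1 : (1 : ℝ) ≤ q := by linarith
  have hdl : (q : ℝ) ^ (1 / 8 : ℝ) ≤ (q : ℝ) ^ (-δ) * (q : ℝ) ^ (1 / 4 : ℝ) := by
    rw [← Real.rpow_add hq0]
    exact Real.rpow_le_rpow_of_exponent_le hq1 (by linarith)
  have hdel1 : (q : ℝ) ^ (-δ) ≤ 1 := Real.rpow_le_one_of_one_le_of_nonpos hq1 (by linarith)
  apply burc_core ((q : ℝ) ^ (-δ)) η (2 * (r : ℝ))
    (Real.rpow_pos_of_pos hq0 _) hdel1 hη (by positivity) r hr1' hrη q hq3r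
  · linarith
  · linarith
  · have h1 : ((q : ℝ) ^ (-δ) / 2) ^ (2 * r) * (q : ℝ) ^ (-δ) = (q : ℝ) ^ (-((2 * r + 1) * δ)) / 2 ^ (2 * r) := by
      rw [div_pow, ← Real.rpow_natCast ((q : ℝ) ^ (-δ)), ← Real.rpow_mul hq0.le, div_mul_eq_mul_div, ← Real.rpow_add hq0]
      congr 2
      push_cast
      ring
    rw [h1]
    have h2 : (q : ℝ) ^ (η / 2) ≤ (q : ℝ) ^ (-((2 * r + 1) * δ)) * (q : ℝ) ^ η := by
      rw [← Real.rpow_add hq0]
      apply Real.rpow_le_rpow_of_exponent_le hq1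
      have h3 : (2 * (r : ℝ) + 1) * δ ≤ (2 * r + 1) * (η / (2 * (2 * r + 1))) := by gcongr
      have h4 : (2 * (r : ℝ) + 1) * (η / (2 * (2 * r + 1))) = η / 2 := by field_simp
      linarith
    rw [div_mul_eq_mul_div, le_div_iff₀ (by positivity)]
    calc 4 * ((r : ℝ) ^ (2 * r) + 2 * r) * 128 * Real.log q * 2 ^ (2 * r)
        = 4 * ((r : ℝ) ^ (2 * r) + 2 * r) * 128 * 2 ^ (2 * r) * Real.log q := by ring
      _ ≤ (q : ℝ) ^ (η / 2) := g3
      _ ≤ _ := h2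
  · intro B hB
    apply Pool.Agent.Y165.HN.fam_all q χ hχ r B hr1'
    rw [Real.rpow_one]
    refine hB.trans ?_
    have h1 : (q : ℝ) ^ (1 / (2 * (r : ℝ))) ≤ (q : ℝ) ^ (1 / 2 : ℝ) := by
      apply Real.rpow_le_rpow_of_exponent_le hq1
      apply one_div_le_one_div_of_le (by norm_num)
      linarith
    have h2 : (q : ℝ) ^ (1 / 2 : ℝ) * (q : ℝ) ^ (1 / 2 : ℝ) = q := by
      rw [← Real.rpow_add hq0]; norm_num
    nlinarith
  · exact hX1
  · calc (X : ℝ) ^ 2 ≤ ((q : ℝ) ^ (1 / 2 + δ)) ^ 2 := pow_le_pow_left₀ (by positivity) hX2 2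
      _ = (q : ℝ) ^ (1 + 2 * δ) := by
          rw [← Real.rpow_natCast, ← Real.rpow_mul hq0.le]
          congr 1
          push_cast
          ring
      _ ≤ (q : ℝ) ^ (1 + 1 / (2 * (r : ℝ))) := by
          apply Real.rpow_le_rpow_of_exponent_le hq1
          have h5 : 2 * (1 / (4 * (r : ℝ))) = 1 / (2 * (r : ℝ)) := by field_simp; ring
          linarith
      _ = q * (q : ℝ) ^ (1 / (2 * (r : ℝ))) := by rw [Real.rpow_add hq0, Real.rpow_one]

lemma sS_add (N : ℕ) (χ : DirichletCharacter ℂ N) (c : ZMod N) (Y Z : ℕ) :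
    sS N χ c (Y + Z) = sS N χ c Y + sS N χ (c + (Y : ZMod N)) Z := by
  unfold sS
  induction Z with
  | zero => simp
  | succ Z ih =>
    rw [← add_assoc, sum_Icc_succ_top (by omega), ih, sum_Icc_succ_top (by omega)]
    push_cast
    rw [show c + (↑Y + ↑Z + 1) = c + ↑Y + (↑Z + 1) by ring]
    ring

/-- **Burgess' bound** for all lengths `X ≥ q ^ (1/4 + η)`. -/
theorem burc (η : ℝ) (hη : 0 < η) : ∃ δ : ℝ, 0 < δ ∧ ∀ᶠ q : ℕ in atTop, q.Prime →
    ∀ χ : DirichletCharacter ℂ q, χ ≠ 1 → ∀ (c : ZMod q) (X : ℕ), (q : ℝ) ^ (1 / 4 + η) ≤ X →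
      ‖sS q χ c X‖ ≤ (q : ℝ) ^ (-δ) * X := by
  -- it is enough to treat small `η`
  set η' : ℝ := min η (1 / 8) with hη'
  have hη'0 : 0 < η' := lt_min hη (by norm_num)
  have hη'1 : η' ≤ η := min_le_left _ _
  have hη'2 : η' ≤ 1 / 8 := min_le_right _ _
  obtain ⟨δ, hδ, h⟩ := burc0 η' hη'0
  refine ⟨δ, hδ, ?_⟩
  have tc : Tendsto (fun q : ℕ => (q : ℝ)) atTop atTop := tendsto_natCast_atTop_atTop
  have f1 : ∀ᶠ x : ℝ in atTop, 4 ≤ x ^ (1 / 8 : ℝ) :=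
    (tendsto_rpow_atTop (by norm_num : (0 : ℝ) < 1 / 8)).eventually_ge_atTop _
  filter_upwards [h, tc.eventually f1, eventually_ge_atTop 3] with q hq g1 hq3
  intro hqp χ hχ c X hX
  have hq1 : (1 : ℝ) ≤ q := by
    have : (3 : ℝ) ≤ q := by exact_mod_cast hq3
    linarith
  have hq0 : (0 : ℝ) < q := by linarith
  set Y : ℕ := ⌈(q : ℝ) ^ (1 / 4 + η')⌉₊ with hY
  have hpos : 1 ≤ (q : ℝ) ^ (1 / 4 + η') := Real.one_le_rpow hq1 (by linarith)
  have hY1 : (q : ℝ) ^ (1 / 4 + η') ≤ Y := Nat.le_ceil _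
  have hY2 : (Y : ℝ) ≤ 2 * (q : ℝ) ^ (1 / 4 + η') := by
    have := (Nat.ceil_lt_add_one (by linarith : (0 : ℝ) ≤ (q : ℝ) ^ (1 / 4 + η'))).le
    linarith
  have hY4 : 2 * (Y : ℝ) ≤ (q : ℝ) ^ (1 / 2 + δ) := by
    calc 2 * (Y : ℝ) ≤ 4 * (q : ℝ) ^ (1 / 4 + η') := by linarith
      _ ≤ (q : ℝ) ^ (1 / 8 : ℝ) * (q : ℝ) ^ (1 / 4 + η') := by gcongr
      _ = (q : ℝ) ^ (1 / 8 + (1 / 4 + η')) := by rw [← Real.rpow_add hq0]
      _ ≤ _ := Real.rpow_le_rpow_of_exponent_le hq1 (by linarith)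
  have hYpos : 0 < Y := by
    have : (0 : ℝ) < Y := by linarith
    exact_mod_cast this
  have key : ∀ X : ℕ, Y ≤ X → ∀ c : ZMod q, ‖sS q χ c X‖ ≤ (q : ℝ) ^ (-δ) * X := by
    intro X
    induction X using Nat.strong_induction_on with
    | _ X ih =>
      intro hX c
      by_cases hX2 : X ≤ 2 * Y
      · refine hq hqp χ hχ c X (hY1.trans (by exact_mod_cast hX)) (le_trans ?_ hY4)
        exact_mod_cast hX2
      · push Not at hX2
        obtain ⟨Z, rfl⟩ : ∃ Z, X = Y + Z := ⟨X - Y, by omega⟩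
        rw [sS_add]
        have h1 := ih Y (by omega) le_rfl c
        have h2 := ih Z (by omega) (by omega) (c + (Y : ZMod q))
        push_cast
        calc ‖sS q χ c Y + sS q χ (c + (Y : ZMod q)) Z‖ ≤ _ := norm_add_le _ _
          _ ≤ (q : ℝ) ^ (-δ) * Y + (q : ℝ) ^ (-δ) * Z := add_le_add h1 h2
          _ = _ := by ring
  apply key
  apply Nat.ceil_le.mpr
  exact (Real.rpow_le_rpow_of_exponent_le hq1 (by linarith)).trans hX

end Pool.Agent.N647.BU
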