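import Pool.Agent.N647.BU.AP
import Pool.Agent.H510R2.Div

set_option autoImplicit false

/-! # Counting primitive roots by characters -/

namespace Pool.Agent.N647.BU

open Finset Filter

/-- (from H343R2) -/
theorem phi_mul_card (n : ℕ) (hn : 1 ≤ n) : n ≤ n.totient * n.divisors.card := by
  have hn0 : n ≠ 0 := by omega
  have h1 := Nat.totient_mul_prod_primeFactors n
  have h2 : ∏ p ∈ n.primeFactors, p ≤ n.divisors.card * ∏ p ∈ n.primeFactors, (p - 1) := by
    rw [Nat.card_divisors hn0, ← Finset.prod_mul_distrib]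
    apply Finset.prod_le_prod'
    intro p hp
    have hpp := Nat.prime_of_mem_primeFactors hp
    have hv : 1 ≤ n.factorization p := by
      rw [Nat.one_le_iff_ne_zero, ← Finsupp.mem_support_iff, Nat.support_factorization]
      exact hp
    have := hpp.two_le
    calc p ≤ 2 * (p - 1) := by omega
      _ ≤ (n.factorization p + 1) * (p - 1) := Nat.mul_le_mul_right _ (by omega)
  have h3 : 0 < ∏ p ∈ n.primeFactors, (p - 1) := by
    apply Finset.prod_pos
    intro p hp
    have := (Nat.prime_of_mem_primeFactors hp).two_le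
    omega
  have h4 : n * ∏ p ∈ n.primeFactors, (p - 1) ≤
      (n.totient * n.divisors.card) * ∏ p ∈ n.primeFactors, (p - 1) := by
    rw [← h1, mul_assoc]
    exact Nat.mul_le_mul_left _ h2
  exact Nat.le_of_mul_le_mul_right h4 h3

/-- (from H385R2) -/
lemma sum_moebius_gcd (b k : ℕ) (hk : k ≠ 0) :
    ∑ d ∈ k.divisors.filter (fun d => d ∣ b), ArithmeticFunction.moebius d =
      if Nat.Coprime b k then 1 else 0 := by
  have h1 : k.divisors.filter (fun d => d ∣ b) = (Nat.gcd b k).divisors := by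
    ext d
    simp only [Finset.mem_filter, Nat.mem_divisors, ne_eq, Nat.gcd_eq_zero_iff]
    constructor
    · rintro ⟨⟨h1, h2⟩, h3⟩
      exact ⟨Nat.dvd_gcd h3 h1, fun h => h2 h.2⟩
    · rintro ⟨h1, h2⟩
      exact ⟨⟨h1.trans (Nat.gcd_dvd_right b k), hk⟩, h1.trans (Nat.gcd_dvd_left b k)⟩
  rw [h1]
  have h2 : ((ArithmeticFunction.moebius * (ArithmeticFunction.zeta : ArithmeticFunction ℤ)) :
      ArithmeticFunction ℤ) (Nat.gcd b k) = (1 : ArithmeticFunction ℤ) (Nat.gcd b k) := by
    rw [ArithmeticFunction.moebius_mul_coe_zeta]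
  rw [ArithmeticFunction.coe_mul_zeta_apply, ArithmeticFunction.one_apply] at h2
  rw [h2]

variable {p : ℕ} [Fact p.Prime]

/-- the Fourier coefficients of a set of residues -/
noncomputable def coef (T : Finset (ZMod p)) (χ : DirichletCharacter ℂ p) : ℂ :=
  (1 / (p.totient : ℂ)) * ∑ a ∈ T, χ a⁻¹

/-- the character sum over a set of integers -/
noncomputable def SX (χ : DirichletCharacter ℂ p) (X : Finset ℤ) : ℂ := ∑ x ∈ X, χ (x : ZMod p)

lemma phi_ne : (p.totient : ℂ) ≠ 0 := by
  have : 0 < p.totient := Nat.totient_pos.mpr (Fact.out : p.Prime).pos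
  exact_mod_cast this.ne'

lemma cnt_eq (T : Finset (ZMod p)) (hT : ∀ a ∈ T, a ≠ 0) (X : Finset ℤ) :
    (((X.filter (fun x : ℤ => (x : ZMod p) ∈ T)).card : ℕ) : ℂ) = ∑ χ, coef T χ * SX χ X := by
  classical
  have h1 : ∀ x : ℤ, (if (x : ZMod p) ∈ T then (1 : ℂ) else 0) =
      ∑ a ∈ T, (1 / (p.totient : ℂ)) * ∑ χ : DirichletCharacter ℂ p, χ a⁻¹ * χ (x : ZMod p) := by
    intro x
    have h2 : ∀ a ∈ T, (1 / (p.totient : ℂ)) *
        ∑ χ : DirichletCharacter ℂ p, χ a⁻¹ * χ (x : ZMod p) = if a = (x : ZMod p) then 1 else 0 := by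
      intro a ha
      rw [DirichletCharacter.sum_char_inv_mul_char_eq ℂ (isUnit_iff_ne_zero.mpr (hT a ha))]
      split_ifs
      · rw [one_div, inv_mul_cancel₀ phi_ne]
      · simp
    rw [sum_congr rfl h2, sum_ite_eq']
  rw [card_filter]
  push_cast
  rw [sum_congr rfl fun x _ => h1 x, sum_comm]
  have h3 : ∀ a ∈ T, ∑ x ∈ X, (1 / (p.totient : ℂ)) *
      ∑ χ : DirichletCharacter ℂ p, χ a⁻¹ * χ (x : ZMod p) =
      ∑ χ : DirichletCharacter ℂ p, (1 / (p.totient : ℂ)) * χ a⁻¹ * SX χ X := by
    intro a _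
    rw [← mul_sum, sum_comm, mul_sum]
    refine sum_congr rfl fun χ _ => ?_
    unfold SX
    rw [← mul_sum]
    ring
  rw [sum_congr rfl h3, sum_comm]
  refine sum_congr rfl fun χ _ => ?_
  unfold coef
  rw [mul_sum, sum_mul]

/-- the coefficients of a multiplicatively closed set are non-negative -/
lemma coef_grp (T : Finset (ZMod p)) (hT : ∀ a ∈ T, a ≠ 0) (hmul : ∀ a ∈ T, ∀ b ∈ T, a * b ∈ T)
    (χ : DirichletCharacter ℂ p) : coef T χ = ((‖coef T χ‖ : ℝ) : ℂ) := by
  classical
  by_cases h : ∀ a ∈ T, χ a = 1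
  · have h1 : ∑ a ∈ T, χ a⁻¹ = T.card := by
      rw [sum_congr rfl (g := fun _ => (1 : ℂ))]
      · simp
      · intro a ha
        have h2 : χ a * χ a⁻¹ = 1 := by
          rw [← map_mul, mul_inv_cancel₀ (hT a ha), map_one]
        rw [h a ha, one_mul] at h2
        exact h2
    have h3 : coef T χ = (((1 / (p.totient : ℝ)) * T.card : ℝ) : ℂ) := by
      unfold coef
      rw [h1]
      push_cast
      ring
    rw [h3, Complex.norm_real, Real.norm_eq_abs, abs_of_nonneg (by positivity)]
  · push Not at h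
    obtain ⟨b, hb, hb1⟩ := h
    have hb0 := hT b hb
    have h1 : ∑ a ∈ T, χ a⁻¹ = χ b⁻¹ * ∑ a ∈ T, χ a⁻¹ := by
      have himg : T.image (fun a => b * a) = T := by
        apply eq_of_subset_of_card_le
        · intro y hy
          obtain ⟨a, ha, rfl⟩ := mem_image.mp hy
          exact hmul b hb a ha
        · rw [card_image_of_injective _ (mul_right_injective₀ hb0)]
      conv_lhs => rw [← himg]
      rw [sum_image (fun a _ c _ h => mul_right_injective₀ hb0 h), mul_sum]
      refine sum_congr rfl fun a _ => ?_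
      rw [mul_inv, map_mul]
    have h2 : χ b⁻¹ ≠ 1 := by
      intro h3
      apply hb1
      have h4 : χ b * χ b⁻¹ = 1 := by
        rw [← map_mul, mul_inv_cancel₀ hb0, map_one]
      rw [h3, mul_one] at h4
      exact h4
    have h3 : ∑ a ∈ T, χ a⁻¹ = 0 := by
      have : (1 - χ b⁻¹) * ∑ a ∈ T, χ a⁻¹ = 0 := by linear_combination h1
      rcases mul_eq_zero.mp this with h4 | h4
      · exact absurd (by linear_combination -h4) h2
      · exact h4
    unfold coef
    rw [h3]
    simp

lemma sum_coef (T : Finset (ZMod p)) (hT : ∀ a ∈ T, a ≠ 0) (h1 : (1 : ZMod p) ∈ T)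
    (hmul : ∀ a ∈ T, ∀ b ∈ T, a * b ∈ T) : ∑ χ : DirichletCharacter ℂ p, ‖coef T χ‖ = 1 := by
  classical
  have h2 : ((∑ χ : DirichletCharacter ℂ p, ‖coef T χ‖ : ℝ) : ℂ) = 1 := by
    push_cast
    rw [sum_congr rfl fun χ _ => (coef_grp T hT hmul χ).symm]
    unfold coef
    rw [← mul_sum, sum_comm]
    have h3 : ∀ a ∈ T, ∑ χ : DirichletCharacter ℂ p, χ a⁻¹ =
        if a = 1 then (p.totient : ℂ) else 0 := by
      intro a _
      rw [DirichletCharacter.sum_characters_eq]
      simp only [inv_eq_one]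
    rw [sum_congr rfl h3, sum_ite_eq', if_pos h1, one_div, inv_mul_cancel₀ phi_ne]
  exact_mod_cast h2

lemma SX_one (X : Finset ℤ) : SX (1 : DirichletCharacter ℂ p) X =
    (((X.filter (fun x : ℤ => (x : ZMod p) ≠ 0)).card : ℕ) : ℂ) := by
  classical
  unfold SX
  rw [card_filter]
  push_cast
  refine sum_congr rfl fun x _ => ?_
  by_cases h : (x : ZMod p) = 0
  · rw [if_neg (not_not.mpr h), h]
    exact MulChar.map_nonunit _ (by simp)
  · rw [if_pos h]
    exact MulChar.one_apply (isUnit_iff_ne_zero.mpr h)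

lemma coef_one (T : Finset (ZMod p)) (hT : ∀ a ∈ T, a ≠ 0) :
    coef T (1 : DirichletCharacter ℂ p) = T.card / (p.totient : ℂ) := by
  unfold coef
  rw [sum_congr rfl (g := fun _ => (1 : ℂ))]
  · simp
    ring
  · intro a ha
    exact MulChar.one_apply (isUnit_iff_ne_zero.mpr (inv_ne_zero (hT a ha)))

/-- the number of elements of a set of integers in a multiplicatively closed set of residues -/
lemma grp_count (T : Finset (ZMod p)) (hT : ∀ a ∈ T, a ≠ 0) (h1 : (1 : ZMod p) ∈ T)
    (hmul : ∀ a ∈ T, ∀ b ∈ T, a * b ∈ T) (X : Finset ℤ) (E : ℝ) (hE0 : 0 ≤ E)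
    (hE : ∀ χ : DirichletCharacter ℂ p, χ ≠ 1 → ‖SX χ X‖ ≤ E) :
    |((X.filter (fun x : ℤ => (x : ZMod p) ∈ T)).card : ℝ) -
      T.card / (p.totient : ℝ) * ((X.filter (fun x : ℤ => (x : ZMod p) ≠ 0)).card : ℝ)| ≤ E := by
  classical
  have h2 := cnt_eq T hT X
  rw [← add_sum_erase univ _ (mem_univ (1 : DirichletCharacter ℂ p)), coef_one T hT, SX_one] at h2
  have h3 : ((((X.filter (fun x : ℤ => (x : ZMod p) ∈ T)).card : ℝ) -
      T.card / (p.totient : ℝ) * ((X.filter (fun x : ℤ => (x : ZMod p) ≠ 0)).card : ℝ) : ℝ) : ℂ) =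
      ∑ χ ∈ univ.erase (1 : DirichletCharacter ℂ p), coef T χ * SX χ X := by
    push_cast
    rw [h2]
    ring
  rw [← Real.norm_eq_abs, ← Complex.norm_real, h3]
  refine (norm_sum_le _ _).trans ?_
  calc ∑ χ ∈ univ.erase (1 : DirichletCharacter ℂ p), ‖coef T χ * SX χ X‖
      ≤ ∑ χ ∈ univ.erase (1 : DirichletCharacter ℂ p), ‖coef T χ‖ * E := by
        refine sum_le_sum fun χ hχ => ?_
        rw [norm_mul]
        exact mul_le_mul_of_nonneg_left (hE χ (ne_of_mem_erase hχ)) (norm_nonneg _)
    _ ≤ ∑ χ : DirichletCharacter ℂ p, ‖coef T χ‖ * E :=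
        sum_le_sum_of_subset_of_nonneg (erase_subset _ _) fun χ _ _ =>
          mul_nonneg (norm_nonneg _) hE0
    _ = E := by rw [← sum_mul, sum_coef T hT h1 hmul, one_mul]

/-- the indicator function of the primitive roots -/
lemma prim_ind (a : ZMod p) : (if orderOf a = p - 1 then (1 : ℤ) else 0) =
    ∑ d ∈ (p - 1).divisors, ArithmeticFunction.moebius d * (if a ^ ((p - 1) / d) = 1 then 1 else 0) := by
  have hp2 := (Fact.out : p.Prime).two_le
  have hN : p - 1 ≠ 0 := by omega
  by_cases ha : a = 0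
  · subst ha
    rw [if_neg]
    · symm
      apply sum_eq_zero
      intro d hd
      have hd2 := Nat.mem_divisors.mp hd
      have h3 : (p - 1) / d ≠ 0 := by
        have := Nat.div_pos (Nat.le_of_dvd (by omega) hd2.1) (Nat.pos_of_dvd_of_pos hd2.1 (by omega))
        omega
      rw [zero_pow h3, if_neg zero_ne_one, mul_zero]
    · have : orderOf (0 : ZMod p) = 0 := by
        rw [orderOf_eq_zero_iff']
        intro n hn
        rw [zero_pow (by omega)]
        exact zero_ne_one
      omega
  · have hord : orderOf a ∣ p - 1 := orderOf_dvd_of_pow_eq_one (ZMod.pow_card_sub_one_eq_one ha)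
    have h1 : ∀ d ∈ (p - 1).divisors, ArithmeticFunction.moebius d *
        (if a ^ ((p - 1) / d) = 1 then (1 : ℤ) else 0) =
        if d ∣ (p - 1) / orderOf a then ArithmeticFunction.moebius d else 0 := by
      intro d hd
      have hd2 := (Nat.mem_divisors.mp hd).1
      have h2 : a ^ ((p - 1) / d) = 1 ↔ d ∣ (p - 1) / orderOf a := by
        rw [← orderOf_dvd_iff_pow_eq_one, Nat.dvd_div_iff_mul_dvd hd2,
          Nat.dvd_div_iff_mul_dvd hord, mul_comm]
      simp only [h2]
      split_ifs <;> simp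
    rw [sum_congr rfl h1, ← sum_filter, sum_moebius_gcd _ _ hN]
    congr 1
    rw [eq_iff_iff]
    constructor
    · intro h
      rw [h, Nat.div_self (by omega)]
      exact Nat.coprime_one_left _
    · intro h
      have h2 : (p - 1) / orderOf a ∣ p - 1 := Nat.div_dvd_of_dvd hord
      have h3 := Nat.Coprime.eq_one_of_dvd h h2
      have h4 := Nat.div_mul_cancel hord
      rw [h3, one_mul] at h4
      exact h4

/-- the number of primitive roots in a set of integers -/
theorem prim_count (X : Finset ℤ) (E : ℝ) (hE0 : 0 ≤ E)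
    (hE : ∀ χ : DirichletCharacter ℂ p, χ ≠ 1 → ‖SX χ X‖ ≤ E) :
    |((X.filter (fun x : ℤ => orderOf (x : ZMod p) = p - 1)).card : ℝ) -
      ((p - 1).totient : ℝ) / (p.totient : ℝ) *
        ((X.filter (fun x : ℤ => (x : ZMod p) ≠ 0)).card : ℝ)| ≤ (p - 1).divisors.card * E := by
  classical
  have hp2 := (Fact.out : p.Prime).two_le
  set T : ℕ → Finset (ZMod p) := fun d => univ.filter (fun a => a ^ ((p - 1) / d) = 1) with hT
  have hpos : ∀ d ∈ (p - 1).divisors, (p - 1) / d ≠ 0 := by
    intro d hd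
    have hd2 := Nat.mem_divisors.mp hd
    have := Nat.div_pos (Nat.le_of_dvd (by omega) hd2.1) (Nat.pos_of_dvd_of_pos hd2.1 (by omega))
    omega
  have hT0 : ∀ d ∈ (p - 1).divisors, ∀ a ∈ T d, a ≠ 0 := by
    intro d hd a ha h0
    have h1 := (mem_filter.mp ha).2
    rw [h0, zero_pow (hpos d hd)] at h1
    exact zero_ne_one h1
  -- the number of primitive roots
  have hP : ((univ.filter (fun a : ZMod p => orderOf a = p - 1)).card : ℤ) = (p - 1).totient := by
    have hcard : Fintype.card (ZMod p)ˣ = p - 1 := ZMod.card_units p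
    have h1 := IsCyclic.card_orderOf_eq_totient (α := (ZMod p)ˣ) (d := p - 1) (by
      rw [hcard])
    have h2 : (univ.filter (fun a : ZMod p => orderOf a = p - 1)).card =
        (univ.filter (fun u : (ZMod p)ˣ => orderOf u = p - 1)).card := by
      symm
      refine card_bij (fun u _ => (u : ZMod p)) ?_ ?_ ?_
      · intro u hu
        rw [mem_filter] at hu ⊢
        exact ⟨mem_univ _, by rw [orderOf_units]; exact hu.2⟩
      · intro u _ w _ h
        exact Units.ext h
      · intro a ha
        rw [mem_filter] at ha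
        have ha0 : a ≠ 0 := by
          rintro rfl
          have h3 : orderOf (0 : ZMod p) = 0 := by
            rw [orderOf_eq_zero_iff']
            intro n hn
            rw [zero_pow (by omega)]
            exact zero_ne_one
          omega
        refine ⟨Units.mk0 a ha0, ?_, rfl⟩
        rw [mem_filter]
        refine ⟨mem_univ _, ?_⟩
        rw [← orderOf_units]
        exact ha.2
    rw [h2, h1]
  have hsumT : ∑ d ∈ (p - 1).divisors, ArithmeticFunction.moebius d * ((T d).card : ℤ) =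
      (p - 1).totient := by
    rw [← hP, card_filter]
    push_cast
    rw [sum_congr rfl fun a _ => prim_ind a, sum_comm]
    refine sum_congr rfl fun d _ => ?_
    rw [← mul_sum, hT, card_filter]
    push_cast
    rfl
  have hsumX : ((X.filter (fun x : ℤ => orderOf (x : ZMod p) = p - 1)).card : ℤ) =
      ∑ d ∈ (p - 1).divisors, ArithmeticFunction.moebius d *
        ((X.filter (fun x : ℤ => (x : ZMod p) ∈ T d)).card : ℤ) := by
    rw [card_filter]
    push_cast
    rw [sum_congr rfl fun (x : ℤ) _ => prim_ind ((x : ℤ) : ZMod p), sum_comm]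
    refine sum_congr rfl fun d _ => ?_
    rw [← mul_sum, card_filter]
    push_cast
    congr 1
    refine sum_congr rfl fun x _ => ?_
    simp only [hT, mem_filter, mem_univ, true_and]
  set U : ℝ := ((X.filter (fun x : ℤ => (x : ZMod p) ≠ 0)).card : ℝ) with hU
  have e1 : ((X.filter (fun x : ℤ => orderOf (x : ZMod p) = p - 1)).card : ℝ) -
      ((p - 1).totient : ℝ) / (p.totient : ℝ) * U =
      ∑ d ∈ (p - 1).divisors, ((ArithmeticFunction.moebius d : ℤ) : ℝ) *
        (((X.filter (fun x : ℤ => (x : ZMod p) ∈ T d)).card : ℝ) -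
          (T d).card / (p.totient : ℝ) * U) := by
    have h1 : ((X.filter (fun x : ℤ => orderOf (x : ZMod p) = p - 1)).card : ℝ) =
        ∑ d ∈ (p - 1).divisors, ((ArithmeticFunction.moebius d : ℤ) : ℝ) *
          ((X.filter (fun x : ℤ => (x : ZMod p) ∈ T d)).card : ℝ) := by exact_mod_cast hsumX
    have h2 : (((p - 1).totient : ℕ) : ℝ) = ∑ d ∈ (p - 1).divisors,
        ((ArithmeticFunction.moebius d : ℤ) : ℝ) * ((T d).card : ℝ) := by exact_mod_cast hsumT.symm
    rw [h1, h2, sum_div, sum_mul, ← sum_sub_distrib]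
    refine sum_congr rfl fun d _ => ?_
    ring
  rw [e1]
  refine (abs_sum_le_sum_abs _ _).trans ?_
  calc ∑ d ∈ (p - 1).divisors, |((ArithmeticFunction.moebius d : ℤ) : ℝ) *
        (((X.filter (fun x : ℤ => (x : ZMod p) ∈ T d)).card : ℝ) -
          (T d).card / (p.totient : ℝ) * U)| ≤ ∑ _d ∈ (p - 1).divisors, E := by
        refine sum_le_sum fun d hd => ?_
        rw [abs_mul]
        have h1 : |((ArithmeticFunction.moebius d : ℤ) : ℝ)| ≤ 1 := by
          exact_mod_cast ArithmeticFunction.abs_moebius_le_one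
        have h2 := grp_count (T d) (hT0 d hd) (by simp [hT]) (by
          intro a ha b hb
          simp only [hT, mem_filter, mem_univ, true_and] at ha hb ⊢
          rw [mul_pow, ha, hb, one_mul]) X E hE0 hE
        calc _ ≤ 1 * E := mul_le_mul h1 h2 (abs_nonneg _) (by norm_num)
          _ = E := one_mul _
    _ = _ := by rw [sum_const, nsmul_eq_mul]

end Pool.Agent.N647.BU
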