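import Pool.Agent.N647.BU.Prim
import Pool.Agent.N647.FG.Thm

set_option autoImplicit false

/-! # Counting the products of integers from short progressions modulo a prime -/

namespace Pool.Agent.N647.BU

open Finset Filter
open Pool.Agent.N647.FG (AP AP_one AP_card prod_pert)

variable {p : ℕ} [Fact p.Prime]

/-- the number of vectors with a given product modulo `p` -/
lemma prod_cnt {r : ℕ} (X : Fin r → Finset ℤ) (a : ZMod p) (ha : a ≠ 0) :
    ((((Fintype.piFinset X).filter (fun x => ∏ j, ((x j : ℤ) : ZMod p) = a)).card : ℕ) : ℂ) =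
      (1 / (p.totient : ℂ)) * ∑ χ : DirichletCharacter ℂ p, χ a⁻¹ * ∏ j, SX χ (X j) := by
  classical
  have h1 : ∀ x : Fin r → ℤ, (if ∏ j, ((x j : ℤ) : ZMod p) = a then (1 : ℂ) else 0) =
      (1 / (p.totient : ℂ)) * ∑ χ : DirichletCharacter ℂ p, χ a⁻¹ * ∏ j, χ ((x j : ℤ) : ZMod p) := by
    intro x
    have h2 := DirichletCharacter.sum_char_inv_mul_char_eq ℂ (isUnit_iff_ne_zero.mpr ha)
      (∏ j, ((x j : ℤ) : ZMod p))
    simp only [map_prod] at h2
    rw [h2]
    by_cases h : ∏ j, ((x j : ℤ) : ZMod p) = a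
    · rw [if_pos h, if_pos h.symm, one_div, inv_mul_cancel₀ phi_ne]
    · rw [if_neg h, if_neg (fun h3 => h h3.symm), mul_zero]
  rw [card_filter]
  push_cast
  rw [sum_congr rfl fun x _ => h1 x, ← mul_sum, sum_comm]
  congr 1
  refine sum_congr rfl fun χ _ => ?_
  rw [← mul_sum]
  congr 1
  unfold SX
  rw [prod_univ_sum]

lemma prod_cnt_bound {r : ℕ} (X : Fin r → Finset ℤ) (a : ZMod p) (ha : a ≠ 0) (B : Fin r → ℝ)
    (hB0 : ∀ j, 0 ≤ B j) (hB : ∀ χ : DirichletCharacter ℂ p, χ ≠ 1 → ∀ j, ‖SX χ (X j)‖ ≤ B j) :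
    |(((Fintype.piFinset X).filter (fun x => ∏ j, ((x j : ℤ) : ZMod p) = a)).card : ℝ) -
      (1 / (p.totient : ℝ)) * ∏ j, (((X j).filter (fun x : ℤ => (x : ZMod p) ≠ 0)).card : ℝ)| ≤
      ∏ j, B j := by
  classical
  have h1 := prod_cnt X a ha
  rw [← add_sum_erase univ _ (mem_univ (1 : DirichletCharacter ℂ p)), mul_add] at h1
  have h2 : (1 : DirichletCharacter ℂ p) a⁻¹ = 1 :=
    MulChar.one_apply (isUnit_iff_ne_zero.mpr (inv_ne_zero ha))
  rw [h2, one_mul, prod_congr rfl fun j _ => SX_one (X j)] at h1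
  have hφ0 : (0 : ℝ) < p.totient := by exact_mod_cast Nat.totient_pos.mpr (Fact.out : p.Prime).pos
  have h3 : (((((Fintype.piFinset X).filter (fun x => ∏ j, ((x j : ℤ) : ZMod p) = a)).card : ℝ) -
      (1 / (p.totient : ℝ)) * ∏ j, (((X j).filter (fun x : ℤ => (x : ZMod p) ≠ 0)).card : ℝ) : ℝ) : ℂ) =
      (1 / (p.totient : ℂ)) * ∑ χ ∈ univ.erase (1 : DirichletCharacter ℂ p),
        χ a⁻¹ * ∏ j, SX χ (X j) := by
    push_cast
    rw [h1]
    ring
  rw [← Real.norm_eq_abs, ← Complex.norm_real, h3, norm_mul]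
  have h4 : ‖∑ χ ∈ univ.erase (1 : DirichletCharacter ℂ p), χ a⁻¹ * ∏ j, SX χ (X j)‖ ≤
      p.totient * ∏ j, B j := by
    refine (norm_sum_le _ _).trans ?_
    calc ∑ χ ∈ univ.erase (1 : DirichletCharacter ℂ p), ‖χ a⁻¹ * ∏ j, SX χ (X j)‖
        ≤ ∑ _χ ∈ univ.erase (1 : DirichletCharacter ℂ p), ∏ j, B j := by
          refine sum_le_sum fun χ hχ => ?_
          rw [norm_mul, norm_prod]
          calc ‖χ a⁻¹‖ * ∏ j, ‖SX χ (X j)‖ ≤ 1 * ∏ j, B j := by
                apply mul_le_mul (χ.norm_le_one _) _ (prod_nonneg fun j _ => norm_nonneg _)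
                  (by norm_num)
                exact prod_le_prod (fun j _ => norm_nonneg _)
                  fun j _ => hB χ (ne_of_mem_erase hχ) j
            _ = _ := one_mul _
      _ ≤ p.totient * ∏ j, B j := by
          rw [sum_const, nsmul_eq_mul]
          apply mul_le_mul_of_nonneg_right _ (prod_nonneg fun j _ => hB0 j)
          have h5 : (univ.erase (1 : DirichletCharacter ℂ p)).card ≤ p.totient := by
            refine (card_le_card (erase_subset _ _)).trans ?_
            rw [card_univ, ← Nat.card_eq_fintype_card,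
              DirichletCharacter.card_eq_totient_of_hasEnoughRootsOfUnity ℂ p]
          exact_mod_cast h5
  have h5 : ‖(1 / (p.totient : ℂ))‖ = 1 / (p.totient : ℝ) := by
    rw [norm_div, norm_one, Complex.norm_natCast]
  rw [h5]
  calc 1 / (p.totient : ℝ) * _ ≤ 1 / (p.totient : ℝ) * (p.totient * ∏ j, B j) :=
        mul_le_mul_of_nonneg_left h4 (by positivity)
    _ = _ := by field_simp

/-- the number of elements of a progression prime to `p` -/
lemma units_AP (M : ℤ) (L q : ℕ) (hq : 1 ≤ q) (hLp : L ≤ p) (ρ : ℤ) :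
    |(((AP M L q ρ).filter (fun x : ℤ => (x : ZMod p) ≠ 0)).card : ℝ) - (L : ℝ) / q| ≤ 3 := by
  classical
  have hp := (Fact.out : p.Prime)
  have hp0 : (0 : ℝ) < p := by exact_mod_cast hp.pos
  set U : ℝ := (((AP M L q ρ).filter (fun x : ℤ => (x : ZMod p) ≠ 0)).card : ℝ) with hU
  have h2 := AP_card M L q hq ρ
  have h3 : |U - (AP M L q ρ).card| ≤ 2 := by
    have e1 := card_filter_add_card_filter_not (s := AP M L q ρ) (fun x : ℤ => (x : ZMod p) = 0)
    have e2 : ((((AP M L q ρ).filter (fun x : ℤ => (x : ZMod p) = 0)).card : ℕ) : ℝ) + U =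
        (AP M L q ρ).card := by
      rw [hU]
      exact_mod_cast e1
    have e3 : ((AP M L q ρ).filter (fun x : ℤ => (x : ZMod p) = 0)).card ≤ (AP M L p 0).card := by
      apply card_le_card
      intro x hx
      rw [mem_filter] at hx
      unfold AP at hx ⊢
      rw [mem_filter] at hx ⊢
      refine ⟨hx.1.1, ?_⟩
      rw [sub_zero, ← ZMod.intCast_zmod_eq_zero_iff_dvd]
      exact hx.2
    have e4 := (abs_le.mp (AP_card M L p hp.one_le 0)).2
    have e5 : (L : ℝ) / p ≤ 1 := by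
      rw [div_le_one hp0]
      exact_mod_cast hLp
    have e6 : ((((AP M L q ρ).filter (fun x : ℤ => (x : ZMod p) = 0)).card : ℕ) : ℝ) ≤
        (AP M L p 0).card := by exact_mod_cast e3
    rw [abs_le]
    constructor
    · linarith
    · have : (0 : ℝ) ≤ ((((AP M L q ρ).filter (fun x : ℤ => (x : ZMod p) = 0)).card : ℕ) : ℝ) :=
        Nat.cast_nonneg _
      linarith
  have := abs_add_le (U - (AP M L q ρ).card) ((AP M L q ρ).card - (L : ℝ) / q)
  rw [sub_add_sub_cancel] at this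
  linarith

end Pool.Agent.N647.BU
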