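import Pool.Agent.R502.BL.Bur

set_option autoImplicit false

/-! # Burgess' method for intervals in arbitrary position (after `Pool.Agent.H471R4.BW`) -/

namespace Pool.Agent.N647.BU

open Finset
open Pool.Agent.H471R4.BW (Complete MOM HOL)

/-- the sum of `χ` over `c + 1, …, c + X` -/
noncomputable def sS (N : ℕ) (χ : DirichletCharacter ℂ N) (c : ZMod N) (X : ℕ) : ℂ :=
  ∑ m ∈ Icc 1 X, χ (c + (m : ZMod N))

open Classical in
/-- number of representations of `x` as `(c + m) / a` with `a ∈ A`, `1 ≤ m ≤ X` -/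
noncomputable def nuc (N : ℕ) (A : Finset ℕ) (c : ZMod N) (X : ℕ) (x : ZMod N) : ℕ :=
  ((A ×ˢ Icc 1 X).filter fun w => c + (w.2 : ZMod N) = (w.1 : ZMod N) * x).card

theorem nuc1 (N : ℕ) [NeZero N] (A : Finset ℕ) (c : ZMod N) (X : ℕ)
    (hA : ∀ a ∈ A, Nat.Coprime a N) : ∑ x : ZMod N, nuc N A c X x = A.card * X := by
  classical
  have h1 : ∑ x : ZMod N, nuc N A c X x =
      ∑ x : ZMod N, ∑ w ∈ A ×ˢ Icc 1 X, if c + (w.2 : ZMod N) = (w.1 : ZMod N) * x then 1 else 0 := by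
    refine Finset.sum_congr rfl fun x _ => ?_
    unfold nuc
    rw [Finset.card_filter]
  rw [h1, Finset.sum_comm]
  have h2 : ∀ w ∈ A ×ˢ Icc 1 X,
      (∑ x : ZMod N, if c + (w.2 : ZMod N) = (w.1 : ZMod N) * x then 1 else 0) = 1 := by
    intro w hw
    obtain ⟨ha, _⟩ := Finset.mem_product.mp hw
    have hu := hA _ ha
    set u : (ZMod N)ˣ := ZMod.unitOfCoprime w.1 hu with hudef
    have hval : (u : ZMod N) = (w.1 : ZMod N) := ZMod.coe_unitOfCoprime _ _
    have h3 : ∀ x : ZMod N, (c + (w.2 : ZMod N) = (w.1 : ZMod N) * x) ↔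
        (↑u⁻¹ * (c + (w.2 : ZMod N)) = x) := by
      intro x
      rw [← hval]
      constructor
      · intro h
        rw [h, Units.inv_mul_cancel_left]
      · intro h
        rw [← h, Units.mul_inv_cancel_left]
    simp_rw [h3]
    rw [Finset.sum_ite_eq]
    simp
  rw [Finset.sum_congr rfl h2, Finset.sum_const, Finset.card_product, Nat.card_Icc]
  simp

/-- pairs `(m, m')` with `b (c + m) = a (c + m')` -/
noncomputable def pairs (N : ℕ) (c : ZMod N) (X a b : ℕ) : Finset (ℕ × ℕ) :=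
  (Icc 1 X ×ˢ Icc 1 X).filter fun m =>
    (b : ZMod N) * (c + (m.1 : ZMod N)) = (a : ZMod N) * (c + (m.2 : ZMod N))

/-- the difference of two solutions -/
lemma pairs_diff (N : ℕ) [NeZero N] (c : ZMod N) (X a b M : ℕ) (haM : a ≤ M) (hbM : b ≤ M)
    (hMX : 2 * M * X < N) (m n : ℕ × ℕ) (hm : m ∈ pairs N c X a b) (hn : n ∈ pairs N c X a b) :
    (b : ℤ) * ((m.1 : ℤ) - n.1) = a * ((m.2 : ℤ) - n.2) := by
  unfold pairs at hm hn
  rw [mem_filter, mem_product, mem_Icc, mem_Icc] at hm hn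
  have h1 : (((b : ℤ) * ((m.1 : ℤ) - n.1) - a * ((m.2 : ℤ) - n.2) : ℤ) : ZMod N) = 0 := by
    push_cast
    linear_combination hm.2 - hn.2
  rw [ZMod.intCast_zmod_eq_zero_iff_dvd] at h1
  obtain ⟨⟨⟨m1, m2⟩, ⟨m3, m4⟩⟩, -⟩ := hm
  obtain ⟨⟨⟨n1, n2⟩, ⟨n3, n4⟩⟩, -⟩ := hn
  have e1 : |(b : ℤ) * ((m.1 : ℤ) - n.1)| ≤ M * X := by
    rw [abs_mul, abs_of_nonneg (Int.natCast_nonneg b)]
    have e2 : |(m.1 : ℤ) - n.1| ≤ X := by
      rw [abs_le]; constructor <;> omega
    have hb' : (b : ℤ) ≤ M := by exact_mod_cast hbM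
    exact mul_le_mul hb' e2 (abs_nonneg _) (by positivity)
  have e3 : |(a : ℤ) * ((m.2 : ℤ) - n.2)| ≤ M * X := by
    rw [abs_mul, abs_of_nonneg (Int.natCast_nonneg a)]
    have e2 : |(m.2 : ℤ) - n.2| ≤ X := by
      rw [abs_le]; constructor <;> omega
    have ha' : (a : ℤ) ≤ M := by exact_mod_cast haM
    exact mul_le_mul ha' e2 (abs_nonneg _) (by positivity)
  have h2 : |(b : ℤ) * ((m.1 : ℤ) - n.1) - a * ((m.2 : ℤ) - n.2)| < N := by
    refine (abs_sub _ _).trans_lt ?_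
    have h3 : ((2 * M * X : ℕ) : ℤ) < N := by exact_mod_cast hMX
    push_cast at h3
    linarith
  have h4 := Int.eq_zero_of_abs_lt_dvd h1 h2
  linarith

lemma pairs_same (N : ℕ) [NeZero N] (c : ZMod N) (X a M : ℕ) (ha0 : 0 < a) (haM : a ≤ M)
    (hMX : 2 * M * X < N) : (pairs N c X a a).card ≤ X := by
  have h : (pairs N c X a a).card ≤ (Icc 1 X).card := by
    apply Finset.card_le_card_of_injOn (fun m => m.1)
    · intro m hm
      have hm' := (mem_product.mp (mem_filter.mp (mem_coe.mp hm)).1).1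
      exact hm'
    · intro m hm n hn e
      have h1 := pairs_diff N c X a a M haM haM hMX m n hm hn
      have ha' : (a : ℤ) ≠ 0 := by exact_mod_cast ha0.ne'
      have h2 := mul_left_cancel₀ ha' h1
      simp only at e
      refine Prod.ext e ?_
      have h3 : (m.1 : ℤ) = n.1 := by exact_mod_cast e
      have h4 : (m.2 : ℤ) = n.2 := by linarith
      exact_mod_cast h4
  simpa using h

lemma pairs_ne (N : ℕ) [NeZero N] (c : ZMod N) (X a b M : ℕ) (ha : a.Prime) (hb : b.Prime)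
    (hab : a ≠ b) (haM : a ≤ M) (hbM : b ≤ M) (hMX : 2 * M * X < N) :
    (pairs N c X a b).card ≤ X / max a b + 1 := by
  -- the first coordinates are congruent mod `a`, the second ones mod `b`
  have hc : IsCoprime (a : ℤ) (b : ℤ) := by
    rw [Nat.isCoprime_iff_coprime]
    exact (Nat.coprime_primes ha hb).2 hab
  have hstep : ∀ m ∈ pairs N c X a b, ∀ n ∈ pairs N c X a b,
      (a : ℤ) ∣ (m.1 : ℤ) - n.1 ∧ (b : ℤ) ∣ (m.2 : ℤ) - n.2 := by
    intro m hm n hn
    have h1 := pairs_diff N c X a b M haM hbM hMX m n hm hn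
    exact ⟨hc.dvd_of_dvd_mul_left ⟨_, h1⟩, hc.symm.dvd_of_dvd_mul_left ⟨_, h1.symm⟩⟩
  have hcount : ∀ (T : Finset ℕ) (k : ℕ), 0 < k → (∀ t ∈ T, 1 ≤ t ∧ t ≤ X) →
      (∀ t ∈ T, ∀ u ∈ T, (k : ℤ) ∣ (t : ℤ) - u) → T.card ≤ X / k + 1 := by
    intro T k hk hT hd
    have h : T.card ≤ (range (X / k + 1)).card := by
      apply Finset.card_le_card_of_injOn (fun t => t / k)
      · intro t ht
        rw [mem_coe, mem_range]
        exact Nat.lt_succ_of_le (Nat.div_le_div_right (hT t ht).2)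
      · intro t ht u hu e
        simp only at e
        have h1 := hd t ht u hu
        have h2 : t % k = u % k := by
          have : (t : ℤ) % k = u % k :=
            Int.emod_eq_emod_iff_emod_sub_eq_zero.mpr (Int.emod_eq_zero_of_dvd h1)
          exact_mod_cast this
        rw [← Nat.div_add_mod t k, ← Nat.div_add_mod u k, e, h2]
    simpa using h
  rcases le_total a b with h | h
  · rw [max_eq_right h]
    have h1 : (pairs N c X a b).card = ((pairs N c X a b).image (fun m => m.2)).card := by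
      rw [card_image_of_injOn]
      intro m hm n hn e
      have h1 := pairs_diff N c X a b M haM hbM hMX m n hm hn
      simp only at e
      rw [e, sub_self, mul_zero] at h1
      have hb' : (b : ℤ) ≠ 0 := by exact_mod_cast hb.ne_zero
      have h2 := (mul_eq_zero.mp h1).resolve_left hb'
      refine Prod.ext ?_ e
      have h4 : (m.1 : ℤ) = n.1 := by linarith
      exact_mod_cast h4
    rw [h1]
    apply hcount _ b hb.pos
    · intro t ht
      obtain ⟨m, hm, rfl⟩ := mem_image.mp ht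
      exact mem_Icc.mp (mem_product.mp (mem_filter.mp hm).1).2
    · intro t ht u hu
      obtain ⟨m, hm, rfl⟩ := mem_image.mp ht
      obtain ⟨n, hn, rfl⟩ := mem_image.mp hu
      exact (hstep m hm n hn).2
  · rw [max_eq_left h]
    have h1 : (pairs N c X a b).card = ((pairs N c X a b).image (fun m => m.1)).card := by
      rw [card_image_of_injOn]
      intro m hm n hn e
      have h1 := pairs_diff N c X a b M haM hbM hMX m n hm hn
      simp only at e
      rw [e, sub_self, mul_zero] at h1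
      have ha' : (a : ℤ) ≠ 0 := by exact_mod_cast ha.ne_zero
      have h2 := (mul_eq_zero.mp h1.symm).resolve_left ha'
      refine Prod.ext e ?_
      have h4 : (m.2 : ℤ) = n.2 := by linarith
      exact_mod_cast h4
    rw [h1]
    apply hcount _ a ha.pos
    · intro t ht
      obtain ⟨m, hm, rfl⟩ := mem_image.mp ht
      exact mem_Icc.mp (mem_product.mp (mem_filter.mp hm).1).1
    · intro t ht u hu
      obtain ⟨m, hm, rfl⟩ := mem_image.mp ht
      obtain ⟨n, hn, rfl⟩ := mem_image.mp hu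
      exact (hstep m hm n hn).1

lemma sum_pairs (N : ℕ) [NeZero N] (c : ZMod N) (A : Finset ℕ) (X M : ℕ) (hA : ∀ a ∈ A, a.Prime)
    (hAM : ∀ a ∈ A, a ≤ M) (hMX : 2 * M * X < N) (hAX : A.card ≤ X) :
    ∑ a ∈ A, ∑ b ∈ A, (pairs N c X a b).card ≤ 4 * A.card * X := by
  have h1 : ∀ a ∈ A, ∀ b ∈ A, (pairs N c X a b).card ≤ ((if a = b then X else 0) +
      ((if b < a then X / a else 0) + (if a < b then X / b else 0))) + 1 := by
    intro a ha b hb
    rcases lt_trichotomy a b with h | h | h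
    · have := pairs_ne N c X a b M (hA a ha) (hA b hb) h.ne (hAM a ha) (hAM b hb) hMX
      rw [max_eq_right h.le] at this
      simp only [h.ne, h, not_lt_of_gt h, if_true, if_false]
      omega
    · subst h
      have := pairs_same N c X a M (hA a ha).pos (hAM a ha) hMX
      simp only [lt_irrefl, if_true, if_false]
      omega
    · have := pairs_ne N c X a b M (hA a ha) (hA b hb) h.ne' (hAM a ha) (hAM b hb) hMX
      rw [max_eq_left h.le] at this
      simp only [h.ne', h, not_lt_of_gt h, if_true, if_false]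
      omega
  have h2 : ∀ a ∈ A, ∑ b ∈ A, (if b < a then X / a else 0) ≤ X := by
    intro a ha
    rw [← Finset.sum_filter, Finset.sum_const, smul_eq_mul]
    have : (A.filter fun b => b < a).card ≤ a := by
      refine (Finset.card_le_card (t := range a) ?_).trans_eq (card_range a)
      intro b hb
      exact mem_range.mpr (mem_filter.mp hb).2
    calc _ ≤ a * (X / a) := Nat.mul_le_mul_right _ this
      _ ≤ X := Nat.mul_div_le X a
  have h3 : ∑ a ∈ A, ∑ b ∈ A, (if a < b then X / b else 0) ≤ A.card * X := by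
    rw [Finset.sum_comm]
    calc _ ≤ ∑ b ∈ A, X := Finset.sum_le_sum fun b hb => h2 b hb
      _ = A.card * X := by simp
  have h4 : ∑ a ∈ A, ∑ b ∈ A, (if b < a then X / a else 0) ≤ A.card * X := by
    calc _ ≤ ∑ b ∈ A, X := Finset.sum_le_sum fun b hb => h2 b hb
      _ = A.card * X := by simp
  have h5 : ∑ a ∈ A, ∑ b ∈ A, (if a = b then X else 0) = A.card * X := by
    rw [Finset.sum_congr rfl (fun a ha => by rw [Finset.sum_ite_eq, if_pos ha])]
    simp
  have h6 : ∑ a ∈ A, ∑ _b ∈ A, 1 = A.card * A.card := by simp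
  calc ∑ a ∈ A, ∑ b ∈ A, (pairs N c X a b).card ≤ ∑ a ∈ A, ∑ b ∈ A, (((if a = b then X else 0) +
      ((if b < a then X / a else 0) + (if a < b then X / b else 0))) + 1) :=
        Finset.sum_le_sum fun a ha => Finset.sum_le_sum fun b hb => h1 a ha b hb
    _ = (∑ a ∈ A, ∑ b ∈ A, (if a = b then X else 0) +
        (∑ a ∈ A, ∑ b ∈ A, (if b < a then X / a else 0) +
          ∑ a ∈ A, ∑ b ∈ A, (if a < b then X / b else 0))) + ∑ a ∈ A, ∑ _b ∈ A, 1 := by
        simp only [Finset.sum_add_distrib]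
    _ ≤ 4 * A.card * X := by
        rw [h5, h6]
        have e : 4 * A.card * X = A.card * X + (A.card * X + A.card * X) + A.card * X := by ring
        have e7 : A.card * A.card ≤ A.card * X := Nat.mul_le_mul_left _ hAX
        omega

theorem nuc2 (N : ℕ) [NeZero N] (A : Finset ℕ) (c : ZMod N) (X M : ℕ) (hA : ∀ a ∈ A, a.Prime)
    (hN : ∀ a ∈ A, Nat.Coprime a N) (hM : ∀ a ∈ A, a ≤ M) (hMX : 2 * M * X < N)
    (hAX : A.card ≤ X) :
    ∑ x : ZMod N, (nuc N A c X x) ^ 2 ≤ 4 * A.card * X := by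
  classical
  have key : ∑ x : ZMod N, (nuc N A c X x) ^ 2 ≤ ∑ a ∈ A, ∑ b ∈ A, (pairs N c X a b).card := by
    have e1 : ∀ x : ZMod N, (nuc N A c X x) ^ 2 = ∑ w ∈ A ×ˢ Icc 1 X, ∑ w' ∈ A ×ˢ Icc 1 X,
        (if c + (w.2 : ZMod N) = (w.1 : ZMod N) * x ∧ c + (w'.2 : ZMod N) = (w'.1 : ZMod N) * x
          then 1 else 0) := by
      intro x
      rw [nuc, pow_two, Finset.card_filter, Finset.sum_mul_sum]
      refine Finset.sum_congr rfl fun w _ => Finset.sum_congr rfl fun w' _ => ?_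
      by_cases h1 : c + (w.2 : ZMod N) = (w.1 : ZMod N) * x <;>
        by_cases h2 : c + (w'.2 : ZMod N) = (w'.1 : ZMod N) * x <;> simp [h1, h2]
    rw [Finset.sum_congr rfl fun x _ => e1 x, Finset.sum_comm]
    have e2 : ∀ w ∈ A ×ˢ Icc 1 X, ∑ x : ZMod N, ∑ w' ∈ A ×ˢ Icc 1 X,
        (if c + (w.2 : ZMod N) = (w.1 : ZMod N) * x ∧ c + (w'.2 : ZMod N) = (w'.1 : ZMod N) * x
          then 1 else 0) ≤ ∑ w' ∈ A ×ˢ Icc 1 X, (if (w'.1 : ZMod N) * (c + (w.2 : ZMod N)) =
            (w.1 : ZMod N) * (c + (w'.2 : ZMod N)) then 1 else 0) := by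
      intro w hw
      rw [Finset.sum_comm]
      refine Finset.sum_le_sum fun w' hw' => ?_
      rw [mem_product, mem_Icc] at hw hw'
      rw [← Finset.card_filter]
      have hu : IsUnit (w.1 : ZMod N) := (ZMod.isUnit_iff_coprime _ _).mpr (hN _ hw.1)
      have hle1 : (univ.filter fun x : ZMod N => c + (w.2 : ZMod N) = (w.1 : ZMod N) * x ∧
          c + (w'.2 : ZMod N) = (w'.1 : ZMod N) * x).card ≤ 1 := by
        rw [Finset.card_le_one]
        intro x hx x' hx'
        rw [mem_filter] at hx hx'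
        exact hu.mul_left_cancel (hx.2.1.symm.trans hx'.2.1)
      by_cases hc : (w'.1 : ZMod N) * (c + (w.2 : ZMod N)) = (w.1 : ZMod N) * (c + (w'.2 : ZMod N))
      · rw [if_pos hc]; exact hle1
      · rw [if_neg hc, Nat.le_zero, Finset.card_eq_zero, Finset.filter_eq_empty_iff]
        rintro x - ⟨h1, h2⟩
        apply hc
        rw [h1, h2]; ring
    refine (Finset.sum_le_sum e2).trans_eq ?_
    rw [Finset.sum_product]
    refine Finset.sum_congr rfl fun a _ => ?_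
    have e3 : ∀ m ∈ Icc 1 X, ∑ w' ∈ A ×ˢ Icc 1 X, (if (w'.1 : ZMod N) * (c + (m : ZMod N)) =
        (a : ZMod N) * (c + (w'.2 : ZMod N)) then 1 else 0) =
        ∑ b ∈ A, ∑ m' ∈ Icc 1 X, (if (b : ZMod N) * (c + (m : ZMod N)) =
          (a : ZMod N) * (c + (m' : ZMod N)) then 1 else 0) := by
      intro m _
      rw [Finset.sum_product]
    rw [Finset.sum_congr rfl e3, Finset.sum_comm]
    refine Finset.sum_congr rfl fun b _ => ?_
    rw [pairs, Finset.card_filter, Finset.sum_product]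
  exact key.trans (sum_pairs N c A X M hA hM hMX hAX)

theorem shfc (N : ℕ) [NeZero N] (χ : DirichletCharacter ℂ N) (A : Finset ℕ) (c : ZMod N)
    (X M B : ℕ) (hA : ∀ a ∈ A, Nat.Coprime a N) (hM : ∀ a ∈ A, a ≤ M) :
    (A.card : ℝ) * B * ‖sS N χ c X‖ ≤
      ∑ x : ZMod N, (nuc N A c X x : ℝ) * ‖∑ b ∈ range B, χ (x + (b : ZMod N))‖ +
        (A.card : ℝ) * B * (2 * M * B) := by
  classical
  set T : ZMod N → ℝ := fun x => ‖∑ b ∈ range B, χ (x + (b : ZMod N))‖ with hT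
  have hχ : ∀ a : ZMod N, ‖χ a‖ ≤ 1 := fun a => χ.norm_le_one a
  have h1 : ∀ a ∈ A, ∀ b ∈ range B,
      ‖sS N χ c X - ∑ m ∈ Icc 1 X, χ (c + ((m + a * b : ℕ) : ZMod N))‖ ≤ 2 * M * B := by
    intro a ha b hb
    rw [Finset.mem_range] at hb
    have h := Pool.Agent.H471R4.BW.SHFx.shift (fun m => χ (c + (m : ZMod N))) (fun m => hχ _) X (a * b)
    refine h.trans ?_
    have h2 : a * b ≤ M * B := Nat.mul_le_mul (hM a ha) hb.le
    have h3 : ((a * b : ℕ) : ℝ) ≤ ((M * B : ℕ) : ℝ) := by exact_mod_cast h2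
    push_cast at h3 ⊢
    linarith
  have h2 : ‖∑ a ∈ A, ∑ b ∈ range B, ∑ m ∈ Icc 1 X, χ (c + ((m + a * b : ℕ) : ZMod N))‖ ≤
      ∑ x : ZMod N, (nuc N A c X x : ℝ) * T x := by
    have e1 : ∑ a ∈ A, ∑ b ∈ range B, ∑ m ∈ Icc 1 X, χ (c + ((m + a * b : ℕ) : ZMod N)) =
        ∑ w ∈ A ×ˢ Icc 1 X, ∑ b ∈ range B, χ (c + ((w.2 + w.1 * b : ℕ) : ZMod N)) := by
      rw [Finset.sum_product]
      refine Finset.sum_congr rfl fun a _ => ?_
      rw [Finset.sum_comm]
    rw [e1]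
    refine (norm_sum_le _ _).trans ?_
    have e2 : ∑ x : ZMod N, (nuc N A c X x : ℝ) * T x =
        ∑ w ∈ A ×ˢ Icc 1 X, ∑ x : ZMod N,
          if c + (w.2 : ZMod N) = (w.1 : ZMod N) * x then T x else 0 := by
      rw [Finset.sum_comm]
      refine Finset.sum_congr rfl fun x _ => ?_
      unfold nuc
      rw [Finset.card_filter]
      push_cast
      rw [Finset.sum_mul]
      refine Finset.sum_congr rfl fun w _ => ?_
      split_ifs <;> simp
    rw [e2]
    refine Finset.sum_le_sum fun w hw => ?_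
    rw [Finset.mem_product] at hw
    have hu : IsUnit (w.1 : ZMod N) := (ZMod.isUnit_iff_coprime w.1 N).mpr (hA _ hw.1)
    obtain ⟨u, hu⟩ := hu
    set x0 : ZMod N := (↑(u⁻¹) : ZMod N) * (c + (w.2 : ZMod N)) with hx0
    have hx1 : (w.1 : ZMod N) * x0 = c + (w.2 : ZMod N) := by
      rw [hx0, ← hu, ← mul_assoc, Units.mul_inv, one_mul]
    have h3 : ∑ x : ZMod N, (if c + (w.2 : ZMod N) = (w.1 : ZMod N) * x then T x else 0) = T x0 := by
      rw [Finset.sum_eq_single x0]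
      · rw [if_pos hx1.symm]
      · intro y _ hy
        rw [if_neg]
        intro h
        apply hy
        rw [hx0, h, ← hu, ← mul_assoc, Units.inv_mul, one_mul]
      · intro h; exact absurd (Finset.mem_univ _) h
    rw [h3]
    have e3 : ∑ b ∈ range B, χ (c + ((w.2 + w.1 * b : ℕ) : ZMod N)) =
        χ (w.1 : ZMod N) * ∑ b ∈ range B, χ (x0 + (b : ZMod N)) := by
      rw [Finset.mul_sum]
      refine Finset.sum_congr rfl fun b _ => ?_
      rw [← map_mul]
      congr 1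
      push_cast
      rw [mul_add, hx1]
      ring
    rw [e3, norm_mul]
    calc ‖χ (w.1 : ZMod N)‖ * ‖∑ b ∈ range B, χ (x0 + (b : ZMod N))‖
        ≤ 1 * ‖∑ b ∈ range B, χ (x0 + (b : ZMod N))‖ :=
          mul_le_mul_of_nonneg_right (hχ _) (norm_nonneg _)
      _ = T x0 := one_mul _
  have h3 : ‖∑ a ∈ A, ∑ b ∈ range B, (sS N χ c X -
      ∑ m ∈ Icc 1 X, χ (c + ((m + a * b : ℕ) : ZMod N)))‖ ≤ (A.card : ℝ) * B * (2 * M * B) := by
    refine (norm_sum_le _ _).trans ?_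
    have h4 : ∀ a ∈ A, ‖∑ b ∈ range B, (sS N χ c X -
        ∑ m ∈ Icc 1 X, χ (c + ((m + a * b : ℕ) : ZMod N)))‖ ≤ B * (2 * M * B) := by
      intro a ha
      refine (norm_sum_le _ _).trans ?_
      refine (Finset.sum_le_sum fun b hb => h1 a ha b hb).trans ?_
      rw [Finset.sum_const, Finset.card_range, nsmul_eq_mul]
    refine (Finset.sum_le_sum h4).trans ?_
    rw [Finset.sum_const, nsmul_eq_mul]
    exact le_of_eq (by ring)
  have e4 : (A.card : ℂ) * B * sS N χ c X =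
      ∑ a ∈ A, ∑ b ∈ range B, (sS N χ c X -
        ∑ m ∈ Icc 1 X, χ (c + ((m + a * b : ℕ) : ZMod N))) +
      ∑ a ∈ A, ∑ b ∈ range B, ∑ m ∈ Icc 1 X, χ (c + ((m + a * b : ℕ) : ZMod N)) := by
    rw [← Finset.sum_add_distrib]
    have : ∀ a ∈ A, (∑ b ∈ range B, (sS N χ c X -
        ∑ m ∈ Icc 1 X, χ (c + ((m + a * b : ℕ) : ZMod N))) +
        ∑ b ∈ range B, ∑ m ∈ Icc 1 X, χ (c + ((m + a * b : ℕ) : ZMod N))) = B * sS N χ c X := by
      intro a _
      rw [← Finset.sum_add_distrib]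
      simp only [sub_add_cancel]
      rw [Finset.sum_const, Finset.card_range, nsmul_eq_mul]
    rw [Finset.sum_congr rfl this, Finset.sum_const, nsmul_eq_mul, mul_assoc]
  have e5 : (A.card : ℝ) * B * ‖sS N χ c X‖ = ‖(A.card : ℂ) * B * sS N χ c X‖ := by
    rw [norm_mul, norm_mul, Complex.norm_natCast, Complex.norm_natCast]
  rw [e5, e4]
  refine (norm_add_le _ _).trans ?_
  linarith

theorem binc (h1 : MOM) (h5 : HOL) (N : ℕ) [NeZero N] (χ : DirichletCharacter ℂ N) (A : Finset ℕ)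
    (c : ZMod N) (X M B r : ℕ) (K : ℝ) (hr : 1 ≤ r) (hK : 0 ≤ K) (hB : 1 ≤ B) (hX : 1 ≤ X)
    (hA : A.Nonempty) (hAp : ∀ a ∈ A, a.Prime) (hAc : ∀ a ∈ A, Nat.Coprime a N)
    (hAM : ∀ a ∈ A, a ≤ M) (hMX : 2 * M * X < N) (hAX : A.card ≤ X)
    (hNB : Real.sqrt N ≤ (B : ℝ) ^ r) (hC : Complete N χ r B K) :
    ‖sS N χ c X‖ ≤ 2 * M * B +
      X * (4 * ((r : ℝ) ^ (2 * r) + K) * Real.sqrt N / (A.card * X)) ^ (1 / (2 * r : ℝ)) := by
  set Tf : ZMod N → ℝ := fun x => ‖∑ b ∈ range B, χ (x + (b : ZMod N))‖ with hTf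
  set P : ℝ := (A.card : ℝ) with hP
  have hP1 : 1 ≤ P := by
    rw [hP]; exact_mod_cast hA.card_pos
  have hX1 : (1 : ℝ) ≤ X := by exact_mod_cast hX
  have hB1 : (1 : ℝ) ≤ B := by exact_mod_cast hB
  have hP0 : 0 < P := by linarith
  have hX0 : (0 : ℝ) < X := by linarith
  have hB0 : (0 : ℝ) < B := by linarith
  set S : ℝ := ∑ x : ZMod N, (nuc N A c X x : ℝ) * Tf x with hS
  have hS0 : 0 ≤ S := Finset.sum_nonneg (fun x _ => mul_nonneg (Nat.cast_nonneg _) (norm_nonneg _))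
  have e1 : ∑ x : ZMod N, (nuc N A c X x : ℝ) = P * X := by
    have := nuc1 N A c X hAc
    rw [hP]
    exact_mod_cast this
  have e2 : ∑ x : ZMod N, ((nuc N A c X x : ℝ)) ^ 2 ≤ 4 * P * X := by
    have := nuc2 N A c X M hAp hAc hAM hMX hAX
    rw [hP]
    exact_mod_cast this
  have e3 : ∑ x : ZMod N, Tf x ^ (2 * r) ≤
      ((r : ℝ) ^ (2 * r) + K) * (B : ℝ) ^ (2 * r) * Real.sqrt N := by
    refine (h1 N χ r B K hr hK hC).trans ?_
    have hN0 : (0 : ℝ) ≤ N := Nat.cast_nonneg _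
    have hNs : (N : ℝ) = Real.sqrt N * Real.sqrt N := (Real.mul_self_sqrt hN0).symm
    have h6 : (B : ℝ) ^ r * N ≤ (B : ℝ) ^ (2 * r) * Real.sqrt N := by
      calc (B : ℝ) ^ r * N = (B : ℝ) ^ r * (Real.sqrt N * Real.sqrt N) := by rw [← hNs]
        _ = (B : ℝ) ^ r * Real.sqrt N * Real.sqrt N := by ring
        _ ≤ (B : ℝ) ^ r * (B : ℝ) ^ r * Real.sqrt N := by
            apply mul_le_mul_of_nonneg_right _ (Real.sqrt_nonneg _)
            exact mul_le_mul_of_nonneg_left hNB (by positivity)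
        _ = (B : ℝ) ^ (2 * r) * Real.sqrt N := by rw [two_mul, pow_add]
    have h7 : (r : ℝ) ^ (2 * r) * ((B : ℝ) ^ r * N) ≤
        (r : ℝ) ^ (2 * r) * ((B : ℝ) ^ (2 * r) * Real.sqrt N) :=
      mul_le_mul_of_nonneg_left h6 (by positivity)
    nlinarith [h7]
  set Q : ℝ := 4 * ((r : ℝ) ^ (2 * r) + K) * Real.sqrt N / (P * X) with hQ
  have hQ0 : 0 ≤ Q := by rw [hQ]; positivity
  have hH := h5 (ZMod N) r hr (fun x => (nuc N A c X x : ℝ)) Tf (fun x => Nat.cast_nonneg _)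
    (fun x => norm_nonneg _)
  have hpow : S ^ (2 * r) ≤ (P * X * B) ^ (2 * r) * Q := by
    refine hH.trans ?_
    rw [e1]
    have h8 : (P * (X : ℝ)) ^ (2 * r - 2) * (∑ x : ZMod N, ((nuc N A c X x : ℝ)) ^ 2) *
        ∑ x : ZMod N, Tf x ^ (2 * r) ≤ (P * (X : ℝ)) ^ (2 * r - 2) * (4 * P * X) *
        (((r : ℝ) ^ (2 * r) + K) * (B : ℝ) ^ (2 * r) * Real.sqrt N) := by
      apply mul_le_mul _ e3 (Finset.sum_nonneg (fun x _ => by positivity)) (by positivity)
      exact mul_le_mul_of_nonneg_left e2 (by positivity)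
    refine h8.trans (le_of_eq ?_)
    have h9 : (P * (X : ℝ) * B) ^ (2 * r) =
        (P * (X : ℝ)) ^ (2 * r - 2) * (P * X) ^ 2 * (B : ℝ) ^ (2 * r) := by
      rw [← pow_add, mul_pow (P * (X : ℝ)) (B : ℝ)]
      congr 2
      omega
    rw [h9, hQ]
    field_simp
  have hroot : S ≤ P * X * B * Q ^ (1 / (2 * r : ℝ)) := by
    have hr0 : (2 * r : ℕ) ≠ 0 := by omega
    have hq : (Q ^ (1 / (2 * r : ℝ))) ^ (2 * r) = Q := by
      rw [← Real.rpow_natCast, ← Real.rpow_mul hQ0]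
      have : 1 / (2 * (r : ℝ)) * ((2 * r : ℕ) : ℝ) = 1 := by
        push_cast
        have : (r : ℝ) ≠ 0 := by
          have : (1 : ℝ) ≤ r := by exact_mod_cast hr
          linarith
        field_simp
      rw [this, Real.rpow_one]
    have h10 : S ^ (2 * r) ≤ (P * X * B * Q ^ (1 / (2 * r : ℝ))) ^ (2 * r) := by
      rw [mul_pow (P * (X : ℝ) * B), hq]
      exact hpow
    exact (pow_le_pow_iff_left₀ hS0 (by positivity) hr0).1 h10
  have hsh := shfc N χ A c X M B hAc hAM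
  have hfin : P * B * ‖sS N χ c X‖ ≤
      P * B * (2 * M * B + X * Q ^ (1 / (2 * r : ℝ))) := by
    calc P * B * ‖sS N χ c X‖ ≤ S + P * B * (2 * M * B) := hsh
      _ ≤ P * X * B * Q ^ (1 / (2 * r : ℝ)) + P * B * (2 * M * B) := by linarith
      _ = _ := by ring
  exact le_of_mul_le_mul_left hfin (by positivity)

end Pool.Agent.N647.BU
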